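import Pool.Agent.X204.NRD

/-!
# An extremal four-dimensional space without 1-complemented hyperplane: `k(4) = 2`
-/

set_option autoImplicit false

open Pool.Agent.X204.NQ

namespace Pool.Agent.Results.MP_30cf1a_an.DimensionFour

/-- There is a four-dimensional real normed space `X` with a hyperplane `Y` with
`λ(Y, X) = 2 - 2 / 4`, all of whose three-dimensional subspaces `Z` have `λ(Z, X) > 1`. -/
theorem result : ∃ (X : Type) (_ : NormedAddCommGroup X) (_ : NormedSpace ℝ X),
    Module.finrank ℝ X = 4 ∧
      (∃ Y : Submodule ℝ X, Module.finrank ℝ Y = 3 ∧ projConst Y = 2 - 2 / 4) ∧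
      ∀ Z : Submodule ℝ X, Module.finrank ℝ Z = 3 → 1 < projConst Z :=
  Pool.Agent.X204.NR.main

end Pool.Agent.Results.MP_30cf1a_an.DimensionFour
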